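import Pool.Agent.U410.CO.Thin
import Pool.Agent.N496.CV.All

/-!
# From the elimination of vertices to the `L²`-Betti numbers of all covers
-/

set_option autoImplicit false
set_option linter.unusedSectionVars false

noncomputable section

namespace Pool.Agent.U410.CO

open Pool.Agent.W907.SG Pool.Agent.W461.SGN Pool.Agent.Helper655.VN Pool.Agent.RK
open Pool.Agent.N496.LT Pool.Agent.N496.CV
open Pool.Agent.W497.FS (lk_subset mem_lk)

attribute [local instance] VN831.bcFunctor_additive VN831.viaAdd VN831.viaMod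

variable {V : Type} [Fintype V] [LinearOrder V] {G : SimpleGraph V}

/-- the vanishing of the homology from the elimination of vertices -/
theorem hv_th (hV : GDV) (hD : GDD) (hS : SUS) (hC : CON) (hL : LNK) (K : Subgroup (W G)) (R : Type)
    [Ring R] (u : K →* R) (hR : Rg K u) {t : ℕ} {A : Finset V} (h : Th G t A) :
    ∀ (L : Set V) (Y : Set (W G)) (E : Subgroup (W G × ℤˣ)), Good K L Y E → (A : Set V) ⊆ L →
      ∀ i, t < i → Hv G (A : Set V) (InM K u Y E) i := by
  induction h with
  | empty t =>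
    intro L Y E _ _ i hi c hc _
    have hc0 : c = 0 := by
      funext T
      refine hc.supp T ?_
      rintro ⟨-, h2, h3⟩
      have : T = ∅ := by
        apply Finset.eq_empty_of_forall_notMem
        intro x hx
        simpa using h2 hx
      rw [this, Finset.card_empty] at h3
      omega
    rw [hc0]
    exact ⟨0, isCh_zero K u Y E _ _, bdf_zero⟩
  | @cone t A v hv _ ih =>
    intro L Y E hG hA i hi
    rw [Finset.coe_insert] at hA ⊢
    have hvL : v ∈ L := hA (Set.mem_insert _ _)
    have hAL : (A : Set V) ⊆ L := fun x hx => hA (Set.mem_insert_of_mem _ hx)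
    have hadj : ∀ x ∈ (A : Set V), G.Adj v x := fun x hx => hv x hx
    exact hC V G K R u L (A : Set V) Y E v i hR hG hvL hAL hadj
      (ih (A : Set V) Y (addv E v 1) (hV V G K L (A : Set V) Y E v 1 hR.tf hG hvL hAL hadj)
        (Set.Subset.refl _) i hi)
  | @susp t A s t' hst hns hadj _ ih =>
    intro L Y E hG hA i hi
    rw [Finset.coe_insert, Finset.coe_insert] at hA ⊢
    have hsL : s ∈ L := hA (Set.mem_insert _ _)
    have htL : t' ∈ L := hA (Set.mem_insert_of_mem _ (Set.mem_insert _ _))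
    have hAL : (A : Set V) ⊆ L := fun x hx =>
      hA (Set.mem_insert_of_mem _ (Set.mem_insert_of_mem _ hx))
    have hadj' : ∀ x ∈ (A : Set V), G.Adj s x ∧ G.Adj t' x := fun x hx => hadj x hx
    exact hS V G K R u L (A : Set V) Y E s t' i hR hG hsL htL hst hns hAL hadj'
      (ih (A : Set V) _ _ (hD V G K L (A : Set V) Y E s t' hG hsL htL hAL hadj')
        (Set.Subset.refl _) i hi)
  | @vert t A v hvA _ _ ih1 ih2 =>
    intro L Y E hG hA i hi
    rw [Finset.coe_insert] at hA ⊢
    have hvL : v ∈ L := hA (Set.mem_insert _ _)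
    have hAL : (A : Set V) ⊆ L := fun x hx => hA (Set.mem_insert_of_mem _ hx)
    obtain ⟨j, rfl⟩ : ∃ j, i = j + 1 := ⟨i - 1, by omega⟩
    have hset : ((Pool.Agent.W497.FS.lk G A v : Finset V) : Set V) = (A : Set V) ∩ G.neighborSet v := by
      ext x
      rw [Finset.mem_coe, mem_lk]
      rfl
    have h2 := ih2 ((A : Set V) ∩ G.neighborSet v) Y (addv E v (-1))
      (hV V G K L _ Y E v (-1) hR.tf hG hvL (fun x hx => hAL hx.1) fun x hx => hx.2)
      (by rw [hset]) j (by omega)
    rw [hset] at h2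
    exact hL V G K R u L (A : Set V) Y E v j hR hG hvL hAL (fun h => hvA h)
      (ih1 L Y E hG hAL (j + 1) hi) h2

/-- **the `L²`-Betti numbers of all covers** -/
theorem l2_th {t : ℕ} (hT : Th G t Finset.univ) (K : Subgroup (W G)) (hK : K ≤ (th G).ker) (k : ℕ)
    (hk : t < k) : VN831.l2Betti K k = 0 := by
  classical
  obtain ⟨n, rfl⟩ : ∃ n, k = n + 1 := ⟨k - 1, by omega⟩
  refine final (res (dac len) CB.conv) V G K n hK fun v hv hv0 => ?_
  obtain ⟨U, hU, ι, hloc⟩ := Pool.Agent.RK.LocEx.loc_exists (vn_NG (G := K))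
  have htf : ∀ (k : K) (n : ℕ), 0 < n → k ^ n = 1 → k = 1 := by
    intro k m hm hk
    apply Subtype.ext
    exact tf V G k.1 (hK k.2) m hm (by
      have := congrArg Subtype.val hk
      simpa using this)
  obtain ⟨h2, hinv⟩ := ru K U ι hloc htf
  obtain ⟨u, hu⟩ : ∃ u : K →* U, ∀ h, u h = ι (canL h) := ⟨(ι : NG K →* U).comp canL, fun h => rfl⟩
  have hRg : Rg K u := ⟨htf, h2, fun h hh => by rw [hu]; exact hinv h hh⟩
  have hH : Hv G Set.univ (InM K u Set.univ ⊥) (n + 1) := by
    have := hv_th (gdv PSPEC.spec) gdd (sus (inj PSPEC.spec) (finp PSPEC.spec) (freep PSPEC.spec)) con lnk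
      K U u hRg hT Set.univ Set.univ ⊥ (good_univ K) (Set.subset_univ _) (n + 1) hk
    rwa [Finset.coe_univ] at this
  obtain ⟨Ψ, p1, p2, p3, p4, p5, p6⟩ := CB.conv V G K U u hK
  have hv' : FV K u (n + 1) (fun i g => ι (v i g)) := by
    refine ⟨fun i hi => ?_, fun i h g g' hg => ?_, ?_⟩
    · funext g
      rw [hv.deg i hi]
      exact map_zero ι
    · rw [hv.eqK i h g g' hg, map_mul, hu]
    · obtain ⟨S, hS⟩ := hv.fin
      refine ⟨S, fun i g hg => hS i g fun h0 => hg (by rw [h0, map_zero])⟩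
  have hz : bdf G (Ψ (fun i g => ι (v i g))) = 0 := by
    rw [← p5 (n + 1) _ hv', mulD_map, hv0]
    have h1 : Ψ 0 = 0 := by
      have := p4 0 0
      rw [add_zero] at this
      exact (left_eq_add.1 this)
    have h3 : (fun (i : (davis G).ι) (g : (th G).ker) => ι ((0 : (davis G).ι → (th G).ker → NG K) i g)) = 0 := by
      funext i g
      exact map_zero ι
    rw [h3, h1]
  obtain ⟨e', he', hbe'⟩ := hH _ (p1 (n + 1) _ hv') hz
  obtain ⟨e2, he2, rfl⟩ := p2 (n + 2) e' he'
  rw [← p5 (n + 2) e2 he2] at hbe'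
  have hD2 := p3 hbe'
  -- clear the denominators
  obtain ⟨S, hS⟩ := he2.fin
  obtain ⟨s, hs, hx⟩ := common_denominator hloc (fun a b ha hb => Pool.Agent.RK.Nz.nz_mul a b ha hb)
    (Finset.univ ×ˢ S : Finset ((davis G).ι × (th G).ker)) (fun a => e2 a.1 a.2)
  have hall : ∀ i g, ∃ x : NG K, ι s * e2 i g = ι x := by
    intro i g
    by_cases h0 : e2 i g = 0
    · exact ⟨0, by rw [h0, mul_zero, map_zero]⟩
    · obtain ⟨h, x, hxS, hgx⟩ := hS i g h0
      obtain ⟨y, hy⟩ := hx (i, x) (Finset.mem_product.2 ⟨Finset.mem_univ _, hxS⟩)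
      refine ⟨y * canL h⁻¹, ?_⟩
      rw [he2.eqK i h x g hgx, ← mul_assoc, hy, map_mul, hu]
  choose e he using hall
  refine ⟨s, hs, e, ⟨fun i hi => ?_, fun i h g g' hg => ?_, ⟨S, fun i g hg => hS i g fun h0 => hg ?_⟩⟩, ?_⟩
  · funext g
    apply hloc.inj
    rw [← he, he2.deg i hi]
    simp
  · apply hloc.inj
    rw [← he, he2.eqK i h g g' hg, ← mul_assoc, he, map_mul, hu]
  · apply hloc.inj
    rw [← he, h0, mul_zero, map_zero]
  · have h3 : mulD (fun i g => ι (e i g)) = fun i g => ι (s * v i g) := by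
      have h4 : (fun i g => ι (e i g)) = fun i g => ι s * e2 i g := by
        funext i g
        rw [he]
      rw [h4, mulD_mul, hD2]
      funext i g
      rw [map_mul]
    rw [mulD_map] at h3
    funext i g
    apply hloc.inj
    exact congrFun (congrFun h3 i) g

end Pool.Agent.U410.CO
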