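import Pool.Agent.U410.CO.Thin

set_option autoImplicit false
set_option linter.unusedSectionVars false

/-! # The elimination bound for flag spheres with a thin link at a vertex of each large simplex -/

namespace Pool.Agent.U410.CO

open Pool.Agent.W497.FS

variable {α : Type} [DecidableEq α] {H : SimpleGraph α}

/-- the bound by the dimension -/
theorem Th.dim {t : ℕ} : ∀ {A : Finset α}, (∀ T ∈ cl H A, T.card ≤ t) → Th H t A := by
  induction t with
  | zero =>
    intro A h
    have hA : A = ∅ := by
      rw [Finset.eq_empty_iff_forall_notMem]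
      intro v hv
      have := h {v} (singleton_mem_cl hv)
      rw [Finset.card_singleton] at this
      omega
    rw [hA]
    exact Th.empty 0
  | succ t ih =>
    intro A h
    refine Th.of_lk fun x hx => ih fun T hT => ?_
    have hT' := mem_cl.1 hT
    have hxT : x ∉ T := fun hh => (mem_lk.1 (hT'.1 hh)).2.ne rfl
    have h1 := h (insert x T) (by
      refine mem_cl.2 ⟨?_, ?_⟩
      · intro y hy
        rcases Finset.mem_insert.1 hy with rfl | hy
        · exact hx
        · exact (mem_lk.1 (hT'.1 hy)).1
      · intro y hy z hz hyz
        rcases Finset.mem_insert.1 hy with hy' | hy' <;> rcases Finset.mem_insert.1 hz with hz' | hz'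
        · exact absurd (hy'.trans hz'.symm) hyz
        · rw [hy']
          exact (mem_lk.1 (hT'.1 hz')).2
        · rw [hz']
          exact (mem_lk.1 (hT'.1 hy')).2.symm
        · exact hT'.2 y hy' z hz' hyz)
    rw [Finset.card_insert_of_notMem hxT] at h1
    omega

/-- Thin flag normal pseudo-manifolds, the wide class: `X` is a set of vertices of the graph `H` which spans a flag
normal pseudo-manifold of dimension `n - 1` (`NP H n X`), and (1) it has at most `5 n / 2` vertices, or at most
`3 n - c`, where `c` is the number of its join factors, or (2) `n = 2 m + 2` and the link of at least one vertex of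
every simplex with `m + 2` vertices is in the class, or (3) `n` is odd, the links of all edges are in the class, and
the non-neighbours of some vertex span a tree, or (4) it is the join of two members of the class. -/
inductive ThinE {α : Type} [DecidableEq α] (H : SimpleGraph α) : ℕ → Finset α → Prop
  | few {n : ℕ} {X : Finset α} : NP H n X →
      2 * X.card ≤ 5 * n ∨ X.card + (comps H X).card ≤ 3 * n → ThinE H n X
  | even {m : ℕ} {X B : Finset α} : NP H (2 * m + 2) X →
      (∀ T ∈ cl H X, T.card = m + 2 → ∃ v ∈ T, v ∉ B) →
      (∀ v ∈ X, v ∉ B → ThinE H (2 * m + 1) (lk H X v)) → ThinE H (2 * m + 2) X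
  | odd {m : ℕ} {X : Finset α} {v : α} : NP H (2 * m + 3) X → v ∈ X → Tree H (nn H X v) →
      (∀ x ∈ X, ∀ y ∈ lk H X x, ThinE H (2 * m + 1) (lk H (lk H X x) y)) → ThinE H (2 * m + 3) X
  | join {m n : ℕ} {A B : Finset α} : Full H A B → ThinE H m A → ThinE H n B → ThinE H (m + n) (A ∪ B)

theorem ThinE.th {n : ℕ} {X : Finset α} (h : ThinE H n X) : Th H (n / 2) X := by
  classical
  induction h with
  | few h hc =>
    rcases hc with hc | hc
    · exact (th_few h).le (by omega)
    · exact th_zero h hc
  | @even m X B h hB _ ih =>
    rw [show (2 * m + 2) / 2 = m + 1 by omega]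
    have hX : X ∩ B ∪ X \ B = X := by
      ext x
      rw [Finset.mem_union, Finset.mem_inter, Finset.mem_sdiff]
      tauto
    have h1 : Th H (m + 1) (X ∩ B) := by
      refine Th.dim fun T hT => ?_
      by_contra hcon
      push Not at hcon
      obtain ⟨U, hUT, hU⟩ := Finset.exists_subset_card_eq (show m + 2 ≤ T.card by omega)
      have hU' : U ∈ cl H X := cl_mono Finset.inter_subset_left (cl_of_subset hT hUT)
      obtain ⟨v, hv, hvB⟩ := hB U hU' hU
      exact hvB (Finset.mem_inter.1 ((mem_cl.1 hT).1 (hUT hv))).2
    have h2 := Th.add (H := H) h1 (X \ B) (fun x hx => by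
      rw [hX]
      rw [Finset.mem_sdiff] at hx
      have := ih x hx.1 hx.2
      rwa [show (2 * m + 1) / 2 = m by omega] at this)
    rwa [hX] at h2
  | @odd m X v h hv hT _ ih =>
    rw [show (2 * m + 3) / 2 = m + 1 by omega]
    refine th_odd (d := 2 * m) h hv hT fun x hx y hy => ?_
    have := ih x hx y hy
    rwa [show (2 * m + 1) / 2 = m by omega] at this
  | @join m n A B hAB _ _ ihA ihB => exact (ihA.join ihB hAB).le (by omega)

end Pool.Agent.U410.CO
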