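import Pool.Agent.U410.CO.Th

set_option autoImplicit false
set_option linter.unusedSectionVars false

/-! # The elimination bound from the number of vertices and from the degrees -/

namespace Pool.Agent.U410.CO

open Pool.Agent.W497.FS

variable {α : Type} [DecidableEq α] {H : SimpleGraph α}

/-- if all vertices have at most one non-neighbour -/
theorem Th.join_pairs : ∀ (N : ℕ) (A : Finset α), A.card ≤ N →
    (∀ v ∈ A, ∀ x ∈ A, ∀ y ∈ A, x ≠ v → y ≠ v → ¬ H.Adj v x → ¬ H.Adj v y → x = y) → Th H 0 A := by
  intro N
  induction N with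
  | zero =>
    intro A hA _
    rw [Finset.card_eq_zero.1 (Nat.le_zero.1 hA)]
    exact Th.empty 0
  | succ N ih =>
    intro A hA h
    rcases A.eq_empty_or_nonempty with rfl | ⟨v, hv⟩
    · exact Th.empty 0
    by_cases hex : ∃ w ∈ A, w ≠ v ∧ ¬ H.Adj v w
    · obtain ⟨w, hw, hwv, hvw⟩ := hex
      have hw1 : w ∈ A.erase v := Finset.mem_erase.2 ⟨hwv, hw⟩
      rw [← Finset.insert_erase hv, ← Finset.insert_erase hw1]
      refine Th.susp hwv.symm hvw ?_ (ih _ ?_ ?_)
      · intro x hx
        rw [Finset.mem_erase, Finset.mem_erase] at hx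
        constructor
        · by_contra hcon
          exact hx.1 (h v hv x hx.2.2 w hw hx.2.1 hwv hcon hvw)
        · by_contra hcon
          exact hx.2.1 (h w hw x hx.2.2 v hv hx.1 hwv.symm hcon fun hh => hvw hh.symm)
      · rw [Finset.card_erase_of_mem hw1, Finset.card_erase_of_mem hv]
        omega
      · intro u hu x hx y hy
        rw [Finset.mem_erase, Finset.mem_erase] at hu hx hy
        exact h u hu.2.2 x hx.2.2 y hy.2.2
    · push Not at hex
      rw [← Finset.insert_erase hv]
      refine Th.cone ?_ (ih _ ?_ ?_)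
      · intro x hx
        rw [Finset.mem_erase] at hx
        exact hex x hx.2 hx.1
      · rw [Finset.card_erase_of_mem hv]
        omega
      · intro u hu x hx y hy
        rw [Finset.mem_erase] at hu hx hy
        exact h u hu.2 x hx.2 y hy.2

/-- the elimination bound is at most a third of the number of vertices -/
theorem Th.third : ∀ (N : ℕ) (A : Finset α), A.card ≤ N → Th H (A.card / 3) A := by
  intro N
  induction N with
  | zero =>
    intro A hA
    rw [Finset.card_eq_zero.1 (Nat.le_zero.1 hA)]
    exact Th.empty _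
  | succ N ih =>
    intro A hA
    by_cases hall : ∀ v ∈ A, ∀ x ∈ A, ∀ y ∈ A, x ≠ v → y ≠ v → ¬ H.Adj v x → ¬ H.Adj v y → x = y
    · exact (Th.join_pairs _ A le_rfl hall).le (Nat.zero_le _)
    · push Not at hall
      obtain ⟨v, hv, x, hx, y, hy, hxv, hyv, hvx, hvy, hxy⟩ := hall
      have hsub : lk H (A.erase v) v ⊆ ((A.erase v).erase x).erase y := by
        intro z hz
        rw [mem_lk] at hz
        rw [Finset.mem_erase, Finset.mem_erase]
        refine ⟨?_, ?_, hz.1⟩
        · rintro rfl
          exact hvy hz.2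
        · rintro rfl
          exact hvx hz.2
      have h1 : x ∈ A.erase v := Finset.mem_erase.2 ⟨hxv, hx⟩
      have h2 : y ∈ (A.erase v).erase x := Finset.mem_erase.2 ⟨hxy.symm, Finset.mem_erase.2 ⟨hyv, hy⟩⟩
      have h3 := Finset.card_le_card hsub
      have c1 := Finset.card_erase_of_mem hv
      have c2 := Finset.card_erase_of_mem h1
      have c3 := Finset.card_erase_of_mem h2
      have p1 := Finset.card_pos.2 ⟨v, hv⟩
      have p2 := Finset.card_pos.2 ⟨x, h1⟩
      have p3 := Finset.card_pos.2 ⟨y, h2⟩
      obtain ⟨s, hs⟩ : ∃ s, A.card / 3 = s + 1 := ⟨A.card / 3 - 1, by omega⟩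
      rw [hs, ← Finset.insert_erase hv]
      refine Th.vert (Finset.notMem_erase v A) ((ih _ (by omega)).le (by omega)) ?_
      exact (ih (lk H (A.erase v) v) (by omega)).le (by omega)

/-- the elimination bound for graphs in which all large sets of vertices contain a vertex of small degree -/
theorem Th.sparse {t : ℕ} : ∀ (N : ℕ) (A : Finset α), A.card ≤ N →
    (∀ U ⊆ A, 3 * t + 3 ≤ U.card → ∃ v ∈ U, (lk H U v).card < 3 * t) → Th H t A := by
  intro N
  induction N with
  | zero =>
    intro A hA _
    rw [Finset.card_eq_zero.1 (Nat.le_zero.1 hA)]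
    exact Th.empty _
  | succ N ih =>
    intro A hA h
    by_cases hc : 3 * t + 3 ≤ A.card
    · obtain ⟨v, hv, hlt⟩ := h A (Finset.Subset.refl A) hc
      obtain ⟨s, rfl⟩ : ∃ s, t = s + 1 := ⟨t - 1, by omega⟩
      have hsub : lk H (A.erase v) v ⊆ lk H A v := lk_mono (Finset.erase_subset v A) v
      have h3 := Finset.card_le_card hsub
      have c1 := Finset.card_erase_of_mem hv
      rw [← Finset.insert_erase hv]
      refine Th.vert (Finset.notMem_erase v A) (ih _ (by omega) ?_) ?_
      · exact fun U hU hUc => h U (hU.trans (Finset.erase_subset v A)) hUc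
      · exact (Th.third _ _ le_rfl).le (by omega)
    · exact (Th.third _ A le_rfl).le (by omega)

end Pool.Agent.U410.CO
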