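import Pool.Agent.U410.FM.Comb

set_option autoImplicit false
set_option linter.unusedSectionVars false

/-! # The elimination of vertices -/

namespace Pool.Agent.U410.CO

open Pool.Agent.W497.FS

/-- `Th H t A`: the flag complex on `A` can be built from the empty complex by cones, suspensions, and by
adding vertices to complexes with the bound `t + 1` along links with the bound `t` -/
inductive Th {α : Type} [DecidableEq α] (H : SimpleGraph α) : ℕ → Finset α → Prop
  | empty (t : ℕ) : Th H t ∅
  | cone {t : ℕ} {A : Finset α} {v : α} : (∀ x ∈ A, H.Adj v x) → Th H t A → Th H t (insert v A)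
  | susp {t : ℕ} {A : Finset α} {v w : α} : v ≠ w → ¬ H.Adj v w →
      (∀ x ∈ A, H.Adj v x ∧ H.Adj w x) → Th H t A → Th H t (insert v (insert w A))
  | vert {t : ℕ} {A : Finset α} {v : α} : v ∉ A → Th H (t + 1) A → Th H t (lk H A v) →
      Th H (t + 1) (insert v A)

variable {α : Type} [DecidableEq α] {H : SimpleGraph α}

theorem Th.le {t : ℕ} {A : Finset α} (h : Th H t A) : ∀ {t' : ℕ}, t ≤ t' → Th H t' A := by
  induction h with
  | empty t => intro t' _; exact Th.empty t'
  | cone h _ ih => intro t' ht; exact Th.cone h (ih ht)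
  | susp h1 h2 h3 _ ih => intro t' ht; exact Th.susp h1 h2 h3 (ih ht)
  | vert hv _ _ ih1 ih2 =>
    intro t' ht
    obtain ⟨s, rfl⟩ : ∃ s, t' = s + 1 := ⟨t' - 1, by omega⟩
    exact Th.vert hv (ih1 ht) (ih2 (by omega))

theorem erase_sub {A B : Finset α} {v : α} (h : B ⊆ insert v A) : B.erase v ⊆ A := by
  intro x hx
  rw [Finset.mem_erase] at hx
  rcases Finset.mem_insert.1 (h hx.2) with h1 | h1
  · exact absurd h1 hx.1
  · exact h1

theorem sub_of_notMem {A B : Finset α} {v : α} (h : B ⊆ insert v A) (hv : v ∉ B) : B ⊆ A := by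
  intro x hx
  rcases Finset.mem_insert.1 (h hx) with h1 | h1
  · exact absurd (h1 ▸ hx) hv
  · exact h1

theorem Th.mono {t : ℕ} {A : Finset α} (h : Th H t A) : ∀ {B : Finset α}, B ⊆ A → Th H t B := by
  induction h with
  | empty t =>
    intro B hB
    rw [Finset.subset_empty.1 hB]
    exact Th.empty t
  | @cone t A v h _ ih =>
    intro B hB
    by_cases hv : v ∈ B
    · rw [← Finset.insert_erase hv]
      exact Th.cone (fun x hx => h x (erase_sub hB hx)) (ih (erase_sub hB))
    · exact ih (sub_of_notMem hB hv)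
  | @susp t A v w h1 h2 h3 _ ih =>
    intro B hB
    by_cases hv : v ∈ B
    · have hB1 := erase_sub hB
      by_cases hw : w ∈ B
      · have hw1 : w ∈ B.erase v := Finset.mem_erase.2 ⟨h1.symm, hw⟩
        rw [← Finset.insert_erase hv, ← Finset.insert_erase hw1]
        exact Th.susp h1 h2 (fun x hx => h3 x (erase_sub hB1 hx)) (ih (erase_sub hB1))
      · have hw1 : w ∉ B.erase v := fun h => hw (Finset.mem_of_mem_erase h)
        have hB2 := sub_of_notMem hB1 hw1
        rw [← Finset.insert_erase hv]
        exact Th.cone (fun x hx => (h3 x (hB2 hx)).1) (ih hB2)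
    · have hB1 := sub_of_notMem hB hv
      by_cases hw : w ∈ B
      · rw [← Finset.insert_erase hw]
        exact Th.cone (fun x hx => (h3 x (erase_sub hB1 hx)).2) (ih (erase_sub hB1))
      · exact ih (sub_of_notMem hB1 hw)
  | @vert t A v hv _ _ ih1 ih2 =>
    intro B hB
    by_cases hv : v ∈ B
    · rw [← Finset.insert_erase hv]
      exact Th.vert (Finset.notMem_erase v B) (ih1 (erase_sub hB)) (ih2 (lk_mono (erase_sub hB) v))
    · exact ih1 (sub_of_notMem hB hv)

theorem Th.join {s t : ℕ} {A B : Finset α} (h : Th H s A) (hB : Th H t B) :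
    Full H A B → Th H (s + t) (A ∪ B) := by
  induction h with
  | empty s =>
    intro _
    rw [Finset.empty_union]
    exact hB.le (by omega)
  | @cone s A v h _ ih =>
    intro hf
    rw [Finset.insert_union]
    refine Th.cone (fun x hx => ?_) (ih fun a ha b hb => hf a (Finset.mem_insert_of_mem ha) b hb)
    rcases Finset.mem_union.1 hx with hx | hx
    · exact h x hx
    · exact hf v (Finset.mem_insert_self v A) x hx
  | @susp s A v w h1 h2 h3 _ ih =>
    intro hf
    rw [Finset.insert_union, Finset.insert_union]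
    refine Th.susp h1 h2 (fun x hx => ?_) (ih fun a ha b hb =>
      hf a (Finset.mem_insert_of_mem (Finset.mem_insert_of_mem ha)) b hb)
    rcases Finset.mem_union.1 hx with hx | hx
    · exact h3 x hx
    · exact ⟨hf v (by simp) x hx, hf w (by simp) x hx⟩
  | @vert s A v hv _ _ ih1 ih2 =>
    intro hf
    have hf' : Full H A B := fun a ha b hb => hf a (Finset.mem_insert_of_mem ha) b hb
    have hvB : ∀ b ∈ B, H.Adj v b := fun b hb => hf v (Finset.mem_insert_self v A) b hb
    rw [Finset.insert_union, show s + 1 + t = s + t + 1 by omega]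
    refine Th.vert (fun h => ?_) ?_ ?_
    · rcases Finset.mem_union.1 h with h | h
      · exact hv h
      · exact (hvB v h).ne rfl
    · rw [show s + t + 1 = s + 1 + t by omega]
      exact ih1 hf'
    · have : lk H (A ∪ B) v = lk H A v ∪ B := by
        ext x
        simp only [mem_lk, Finset.mem_union]
        constructor
        · rintro ⟨h1 | h1, h2⟩
          · exact Or.inl ⟨h1, h2⟩
          · exact Or.inr h1
        · rintro (⟨h1, h2⟩ | h1)
          · exact ⟨Or.inl h1, h2⟩
          · exact ⟨Or.inr h1, hvB x h1⟩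
      rw [this]
      exact ih2 (hf'.mono lk_subset (Finset.Subset.refl B))

/-- adding many vertices -/
theorem Th.add {t : ℕ} {B : Finset α} (hB : Th H (t + 1) B) (R : Finset α)
    (hR : ∀ x ∈ R, Th H t (lk H (B ∪ R) x)) : Th H (t + 1) (B ∪ R) := by
  induction R using Finset.induction_on with
  | empty => rwa [Finset.union_empty]
  | insert x R hx ih =>
    have hs : B ∪ R ⊆ B ∪ insert x R :=
      Finset.union_subset_union (Finset.Subset.refl B) (Finset.subset_insert x R)
    have h1 : Th H (t + 1) (B ∪ R) := ih fun y hy =>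
      (hR y (Finset.mem_insert_of_mem hy)).mono (lk_mono hs y)
    by_cases hxB : x ∈ B ∪ R
    · rwa [Finset.union_insert, Finset.insert_eq_of_mem hxB]
    · rw [Finset.union_insert]
      exact Th.vert hxB h1 ((hR x (Finset.mem_insert_self x R)).mono (lk_mono hs x))

/-- from the links of the vertices -/
theorem Th.of_lk {t : ℕ} {X : Finset α} (h : ∀ x ∈ X, Th H t (lk H X x)) : Th H (t + 1) X := by
  have := Th.add (Th.empty (H := H) (t + 1)) X (fun x hx => by
    rw [Finset.empty_union]
    exact h x hx)
  rwa [Finset.empty_union] at this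

/-- suspensions -/
theorem susp_data {d : ℕ} {X : Finset α} (h : NP H (d + 1) X) {v w : α} (hv : v ∈ X)
    (hn : nn H X v = {w}) : X = insert v (insert w (lk H X v)) ∧ v ≠ w ∧ ¬ H.Adj v w ∧
      ∀ x ∈ lk H X v, H.Adj v x ∧ H.Adj w x := by
  have hw : w ∈ nn H X v := by rw [hn]; simp
  rw [mem_nn] at hw
  refine ⟨?_, hw.2.1.symm, hw.2.2, fun x hx => ⟨(mem_lk.1 hx).2, ?_⟩⟩
  · ext x
    rw [Finset.mem_insert, Finset.mem_insert, mem_lk]
    constructor
    · intro hx
      by_cases h1 : x = v
      · exact Or.inl h1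
      by_cases h2 : H.Adj v x
      · exact Or.inr (Or.inr ⟨hx, h2⟩)
      · have : x ∈ nn H X v := mem_nn.2 ⟨hx, h1, h2⟩
        rw [hn, Finset.mem_singleton] at this
        exact Or.inr (Or.inl this)
    · rintro (rfl | rfl | h1)
      · exact hv
      · exact hw.1
      · exact h1.1
  · have hvx : v ∈ lk H X x := mem_lk.2 ⟨hv, (mem_lk.1 hx).2.symm⟩
    obtain ⟨u, u1, u2, u3⟩ := (h.lk (lk_subset hx)).exists_nonadj hvx
    have : u ∈ nn H X v := mem_nn.2 ⟨lk_subset u1, u2, u3⟩
    rw [hn, Finset.mem_singleton] at this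
    rw [← this]
    exact (mem_lk.1 u1).2.symm

/-- at most `5 n / 2` vertices -/
theorem th_few {n : ℕ} {X : Finset α} (h : NP H n X) : Th H (X.card - 2 * n) X := by
  induction n generalizing X with
  | zero =>
    have h0 : X = ∅ := h
    rw [h0]
    exact Th.empty _
  | succ n ih =>
    by_cases hs : ∃ v ∈ X, (nn H X v).card = 1
    · obtain ⟨v, hv, hc⟩ := hs
      obtain ⟨w, hw⟩ := Finset.card_eq_one.1 hc
      obtain ⟨h1, h2, h3, h4⟩ := susp_data h hv hw
      have h5 := card_eq_lk_nn (H := H) hv
      have h6 := ih (h.lk hv)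
      rw [show (lk H X v).card - 2 * n = X.card - 2 * (n + 1) by omega] at h6
      have h7 := Th.susp h2 h3 h4 h6
      rwa [← h1] at h7
    · push Not at hs
      have hc : ∀ v ∈ X, (lk H X v).card + 3 ≤ X.card := by
        intro v hv
        have h1 := card_eq_lk_nn (H := H) hv
        have h2 := Finset.card_pos.2 (h.nn_nonempty hv)
        have h3 := hs v hv
        omega
      obtain ⟨v0, hv0⟩ := h.nonempty
      have h0 := (h.lk hv0).two_mul_le
      have h1 := hc v0 hv0
      rw [show X.card - 2 * (n + 1) = (X.card - 3 - 2 * n) + 1 by omega]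
      refine Th.of_lk fun v hv => ?_
      have h2 := hc v hv
      exact (ih (h.lk hv)).le (by omega)

end Pool.Agent.U410.CO
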