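import Pool.Agent.U410.CO.Tree

set_option autoImplicit false
set_option linter.unusedSectionVars false

/-! # Thin complexes -/

namespace Pool.Agent.U410.CO

open Pool.Agent.W497.FS

variable {α : Type} [DecidableEq α] {H : SimpleGraph α}

/-- at most two non-neighbours span a tree -/
theorem tree_two {d : ℕ} {X : Finset α} (h : NP H (d + 2) X) {v : α} (hv : v ∈ X)
    (hc : (nn H X v).card ≤ 2) : Tree H (nn H X v) := by
  have h0 := Finset.card_pos.2 (h.nn_nonempty hv)
  rcases Nat.lt_or_ge (nn H X v).card 2 with h1 | h1
  · obtain ⟨w, hw⟩ := Finset.card_eq_one.1 (show (nn H X v).card = 1 by omega)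
    rw [hw]
    exact Tree.one w
  · obtain ⟨a, b, hab, hM⟩ := Finset.card_eq_two.1 (show (nn H X v).card = 2 by omega)
    obtain ⟨p, hp, q, hq, hpq⟩ := nn_conn h hv (P := {a}) (Q := {b}) ⟨a, by simp⟩ ⟨b, by simp⟩
      (by rw [hM]; rfl) (by simpa using hab)
    rw [Finset.mem_singleton] at hp hq
    subst hp hq
    rw [hM]
    refine Tree.leaf (b := q) (Tree.one q) (by simpa using hab) (by simp) fun x hx => ?_
    rw [Finset.mem_singleton] at hx
    subst hx
    exact ⟨fun _ => rfl, fun _ => hpq⟩

/-- defect zero -/
theorem th_zero {n : ℕ} {X : Finset α} (h : NP H n X) (hδ : X.card + (comps H X).card ≤ 3 * n) :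
    Th H (n / 2) X := by
  induction hn : X.card using Nat.strong_induction_on generalizing n X with
  | _ N ih =>
    subst hn
    rcases X.eq_empty_or_nonempty with rfl | hne
    · exact Th.empty _
    by_cases hp : Prm H X
    · rcases n with _ | _ | d
      · have h0 : X = ∅ := h
        rw [h0]
        exact Th.empty _
      · have h' : X.card = 2 ∧ ∀ x ∈ X, ∀ y ∈ X, ¬ H.Adj x y := h
        obtain ⟨a, b, hab, rfl⟩ := Finset.card_eq_two.1 h'.1
        exact Th.susp (A := ∅) hab (h'.2 a (by simp) b (by simp))
          (fun x hx => absurd hx (Finset.notMem_empty x)) (Th.empty _)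
      · have hdef := hδ
        have hlk : ∀ v ∈ X, (lk H X v).card + (comps H (lk H X v)).card ≤ 3 * (d + 1) ∧
            (lk H X v).card < X.card ∧ Th H ((d + 1) / 2) (lk H X v) := by
          intro v hv
          have h1 := h.defect_lk v hv
          have h2 := card_eq_lk_nn (H := H) hv
          exact ⟨by omega, by omega, ih _ (by omega) (h.lk hv) (by omega) rfl⟩
        rcases Nat.even_or_odd d with ⟨m, hm⟩ | ⟨m, hm⟩
        · obtain rfl : d = 2 * m := by omega
          rw [show (2 * m + 2) / 2 = m + 1 by omega]
          refine Th.of_lk fun v hv => ?_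
          have := (hlk v hv).2.2
          rwa [show (2 * m + 1) / 2 = m by omega] at this
        · subst hm
          rw [comps_prm hp, Finset.card_singleton] at hδ
          obtain ⟨v, hv, -, hm⟩ := exists_small (k := 0) h hp (by omega)
          rw [show (2 * m + 1 + 2) / 2 = m + 1 by omega]
          refine th_odd (d := 2 * m) h hv (tree_two (d := 2 * m + 1) h hv hm) fun x hx y hy => ?_
          obtain ⟨k1, k2, -⟩ := hlk x hx
          have hx' : NP H (2 * m + 2) (lk H X x) := h.lk hx
          have h1 := hx'.defect_lk y hy
          have h2 := card_eq_lk_nn (H := H) hy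
          have := ih _ (by omega) (hx'.lk hy) (by omega) rfl
          rwa [show (2 * m + 1) / 2 = m by omega] at this
    · obtain ⟨A, B, hA, hB, hAB, rfl⟩ := split_of_not_prm hne hp
      obtain ⟨d₁, d₂, rfl, h1, h2⟩ := h.split hAB
      rw [card_comps_union hAB, Finset.card_union_of_disjoint hAB.disjoint] at hδ
      have k1 := h1.three_mul_le
      have k2 := h2.three_mul_le
      have hc := Finset.card_union_of_disjoint hAB.disjoint
      have hA' := Finset.card_pos.2 hA
      have hB' := Finset.card_pos.2 hB
      have t1 := ih A.card (by omega) h1 (by omega) rfl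
      have t2 := ih B.card (by omega) h2 (by omega) rfl
      exact (t1.join t2 hAB).le (by omega)

/-- Thin flag normal pseudo-manifolds: `X` is a set of vertices of the graph `H` which spans a flag normal
pseudo-manifold of dimension `n - 1` (`NP H n X`), and (1) it has at most `5 n / 2` vertices, or at most
`3 n - c`, where `c` is the number of its join factors, or (2) `n` is even and the links of all vertices are
thin, or (3) `n` is odd, the links of all edges are thin, and the non-neighbours of some vertex span a tree,
or (4) it is the join of two thin complexes. -/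
inductive Thin {α : Type} [DecidableEq α] (H : SimpleGraph α) : ℕ → Finset α → Prop
  | few {n : ℕ} {X : Finset α} : NP H n X →
      2 * X.card ≤ 5 * n ∨ X.card + (comps H X).card ≤ 3 * n → Thin H n X
  | even {m : ℕ} {X : Finset α} : NP H (2 * m + 2) X → (∀ v ∈ X, Thin H (2 * m + 1) (lk H X v)) →
      Thin H (2 * m + 2) X
  | odd {m : ℕ} {X : Finset α} {v : α} : NP H (2 * m + 3) X → v ∈ X → Tree H (nn H X v) →
      (∀ x ∈ X, ∀ y ∈ lk H X x, Thin H (2 * m + 1) (lk H (lk H X x) y)) → Thin H (2 * m + 3) X
  | join {m n : ℕ} {A B : Finset α} : Full H A B → Thin H m A → Thin H n B → Thin H (m + n) (A ∪ B)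

theorem Thin.th {n : ℕ} {X : Finset α} (h : Thin H n X) : Th H (n / 2) X := by
  induction h with
  | few h hc =>
    rcases hc with hc | hc
    · exact (th_few h).le (by omega)
    · exact th_zero h hc
  | @even m X h _ ih =>
    rw [show (2 * m + 2) / 2 = m + 1 by omega]
    refine Th.of_lk fun v hv => ?_
    have := ih v hv
    rwa [show (2 * m + 1) / 2 = m by omega] at this
  | @odd m X v h hv hT _ ih =>
    rw [show (2 * m + 3) / 2 = m + 1 by omega]
    refine th_odd (d := 2 * m) h hv hT fun x hx y hy => ?_
    have := ih x hx y hy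
    rwa [show (2 * m + 1) / 2 = m by omega] at this
  | join hAB _ _ ih1 ih2 => exact (ih1.join ih2 hAB).le (by omega)

end Pool.Agent.U410.CO
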