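import Pool.Agent.U410.CO.Th

set_option autoImplicit false
set_option linter.unusedSectionVars false

/-! # Non-neighbours which span a tree -/

namespace Pool.Agent.U410.CO

open Pool.Agent.W497.FS

variable {α : Type} [DecidableEq α] {H : SimpleGraph α}

theorem even_deg (P : Finset α) : Even (∑ p ∈ P, (lk H P p).card) := by
  classical
  induction P using Finset.induction_on with
  | empty => simp
  | insert p P hp ih =>
    rw [Finset.sum_insert hp]
    have h0 : lk H (insert p P) p = lk H P p := by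
      ext x
      rw [mem_lk, mem_lk, Finset.mem_insert]
      constructor
      · rintro ⟨rfl | h, h'⟩
        · exact absurd h' (H.loopless.irrefl _)
        · exact ⟨h, h'⟩
      · rintro ⟨h, h'⟩
        exact ⟨Or.inr h, h'⟩
    have h1 : ∀ x ∈ P, (lk H (insert p P) x).card = (lk H P x).card + if H.Adj p x then 1 else 0 := by
      intro x _
      by_cases h : H.Adj p x
      · have : lk H (insert p P) x = insert p (lk H P x) := by
          ext y
          rw [mem_lk, Finset.mem_insert, Finset.mem_insert, mem_lk]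
          constructor
          · rintro ⟨rfl | h1, h2⟩
            · exact Or.inl rfl
            · exact Or.inr ⟨h1, h2⟩
          · rintro (rfl | ⟨h1, h2⟩)
            · exact ⟨Or.inl rfl, h.symm⟩
            · exact ⟨Or.inr h1, h2⟩
        rw [this, Finset.card_insert_of_notMem (fun h => hp (lk_subset h)), if_pos h]
      · have : lk H (insert p P) x = lk H P x := by
          ext y
          rw [mem_lk, Finset.mem_insert, mem_lk]
          constructor
          · rintro ⟨rfl | h1, h2⟩
            · exact absurd h2.symm h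
            · exact ⟨h1, h2⟩
          · rintro ⟨h1, h2⟩
            exact ⟨Or.inr h1, h2⟩
        rw [this, if_neg h, add_zero]
    rw [Finset.sum_congr rfl h1, Finset.sum_add_distrib, h0]
    have h2 : ∑ x ∈ P, (if H.Adj p x then 1 else 0) = (lk H P p).card := by
      rw [← Finset.card_filter, lk]
    rw [h2, show (lk H P p).card + (∑ x ∈ P, (lk H P x).card + (lk H P p).card) =
      ((lk H P p).card + (lk H P p).card) + ∑ x ∈ P, (lk H P x).card by omega]
    exact Even.add ⟨_, rfl⟩ ih

/-- the non-neighbours of a vertex are connected -/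
theorem nn_conn {d : ℕ} {W : Finset α} (h : NP H (d + 2) W) {v : α} (hv : v ∈ W) {P Q : Finset α}
    (hP : P.Nonempty) (hQ : Q.Nonempty) (hu : P ∪ Q = nn H W v) (hd : Disjoint P Q) :
    ∃ p ∈ P, ∃ q ∈ Q, H.Adj p q := by
  classical
  induction d generalizing W v P Q with
  | zero =>
    by_contra hno
    push Not at hno
    have hPn : ∀ p ∈ P, p ∈ W ∧ p ≠ v ∧ ¬ H.Adj v p := fun p hp => mem_nn.1 (by
      rw [← hu]; exact Finset.mem_union_left _ hp)
    have hQn : ∀ p ∈ Q, p ∈ W ∧ p ≠ v ∧ ¬ H.Adj v p := fun p hp => mem_nn.1 (by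
      rw [← hu]; exact Finset.mem_union_right _ hp)
    -- the links have two elements
    have h2 : ∀ x ∈ W, (lk H W x).card = 2 ∧ ∀ y ∈ lk H W x, ∀ z ∈ lk H W x, ¬ H.Adj y z :=
      fun x hx => h.lk hx
    -- a neighbour of `v` has one more neighbour
    have hL : ∀ x ∈ lk H W v, (lk H P x).card + (lk H Q x).card = 1 := by
      intro x hx
      have hxW := lk_subset hx
      have hvx : v ∈ lk H W x := mem_lk.2 ⟨hv, (mem_lk.1 hx).2.symm⟩
      have h3 : lk H W x = insert v (lk H P x ∪ lk H Q x) := by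
        ext y
        rw [Finset.mem_insert, Finset.mem_union, mem_lk, mem_lk, mem_lk]
        constructor
        · rintro ⟨k1, k2⟩
          by_cases hyv : y = v
          · exact Or.inl hyv
          have hvy : ¬ H.Adj v y := (h2 x hxW).2 v hvx y (mem_lk.2 ⟨k1, k2⟩)
          have : y ∈ P ∪ Q := by rw [hu]; exact mem_nn.2 ⟨k1, hyv, hvy⟩
          rcases Finset.mem_union.1 this with k | k
          · exact Or.inr (Or.inl ⟨k, k2⟩)
          · exact Or.inr (Or.inr ⟨k, k2⟩)
        · rintro (rfl | ⟨k1, k2⟩ | ⟨k1, k2⟩)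
          · exact mem_lk.1 hvx
          · exact ⟨(hPn y k1).1, k2⟩
          · exact ⟨(hQn y k1).1, k2⟩
      have h4 := (h2 x hxW).1
      rw [h3, Finset.card_insert_of_notMem, Finset.card_union_of_disjoint] at h4
      · omega
      · rw [Finset.disjoint_left]
        intro y k1 k2
        exact Finset.disjoint_left.1 hd (lk_subset k1) (lk_subset k2)
      · intro k
        rcases Finset.mem_union.1 k with k | k
        · exact (hPn v (lk_subset k)).2.1 rfl
        · exact (hQn v (lk_subset k)).2.1 rfl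
    -- parity
    have hpar : ∀ {A B : Finset α}, A.Nonempty → A ∪ B = nn H W v → Disjoint A B →
        (∀ p ∈ A, ∀ q ∈ B, ¬ H.Adj p q) → Even (∑ x ∈ lk H W v, (lk H A x).card) := by
      intro A B _ hAB hdis hnoAB
      have hAn : ∀ p ∈ A, p ∈ W ∧ p ≠ v ∧ ¬ H.Adj v p := fun p hp => mem_nn.1 (by
        rw [← hAB]; exact Finset.mem_union_left _ hp)
      have k1 : ∀ p ∈ A, 2 = (lk H A p).card + (lk H (lk H W v) p).card := by
        intro p hp
        rw [← (h2 p (hAn p hp).1).1, ← Finset.card_union_of_disjoint]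
        · congr 1
          ext y
          rw [Finset.mem_union, mem_lk, mem_lk, mem_lk]
          constructor
          · rintro ⟨y1, y2⟩
            by_cases hyv : y = v
            · exact absurd (hyv ▸ y2).symm (hAn p hp).2.2
            by_cases hvy : H.Adj v y
            · exact Or.inr ⟨mem_lk.2 ⟨y1, hvy⟩, y2⟩
            · have : y ∈ A ∪ B := by rw [hAB]; exact mem_nn.2 ⟨y1, hyv, hvy⟩
              rcases Finset.mem_union.1 this with k | k
              · exact Or.inl ⟨k, y2⟩
              · exact absurd y2 (hnoAB p hp y k)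
          · rintro (⟨y1, y2⟩ | ⟨y1, y2⟩)
            · exact ⟨(hAn y y1).1, y2⟩
            · exact ⟨lk_subset y1, y2⟩
        · rw [Finset.disjoint_left]
          intro y y1 y2
          exact (hAn y (lk_subset y1)).2.2 (mem_lk.1 (lk_subset y2)).2
      have k2 : ∑ x ∈ lk H W v, (lk H A x).card = ∑ p ∈ A, (lk H (lk H W v) p).card := by
        have e1 : ∀ (S : Finset α) (z : α), (lk H S z).card = ∑ s ∈ S, if H.Adj z s then 1 else 0 := by
          intro S z
          rw [← Finset.card_filter, lk]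
        simp only [e1]
        rw [Finset.sum_comm]
        refine Finset.sum_congr rfl fun p _ => Finset.sum_congr rfl fun x _ => ?_
        rw [H.adj_comm]
      have k3 : 2 * A.card = ∑ p ∈ A, (lk H A p).card + ∑ x ∈ lk H W v, (lk H A x).card := by
        rw [k2, ← Finset.sum_add_distrib, ← Finset.sum_congr rfl k1, Finset.sum_const,
          smul_eq_mul, mul_comm]
      have k4 := even_deg (H := H) A
      rw [Nat.even_iff] at k4 ⊢
      omega
    have hcard := (h2 v hv).1
    obtain ⟨x, y, hxy, hLxy⟩ := Finset.card_eq_two.1 hcard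
    have e := hpar hP hu hd hno
    rw [hLxy, Finset.sum_pair hxy] at e
    have ex := hL x (by rw [hLxy]; simp)
    have ey := hL y (by rw [hLxy]; simp)
    -- one of the parts has no neighbours
    have iso : ∀ {A B : Finset α}, A.Nonempty → A ∪ B = nn H W v →
        (∀ p ∈ A, ∀ q ∈ B, ¬ H.Adj p q) → (lk H A x).card = 0 → (lk H A y).card = 0 → False := by
      intro A B hA hAB hnoAB hx0 hy0
      have hAn : ∀ p ∈ A, p ∈ W ∧ p ≠ v ∧ ¬ H.Adj v p := fun p hp => mem_nn.1 (by
        rw [← hAB]; exact Finset.mem_union_left _ hp)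
      obtain ⟨a, ha, b, hb, hbA, hab⟩ := h.2.1 A (fun p hp => (hAn p hp).1) hA
        (fun he => (hAn v (by rw [he]; exact hv)).2.1 rfl)
      by_cases hbv : b = v
      · exact (hAn a ha).2.2 (hbv ▸ hab).symm
      by_cases hvb : H.Adj v b
      · have : b ∈ lk H W v := mem_lk.2 ⟨hb, hvb⟩
        rw [hLxy, Finset.mem_insert, Finset.mem_singleton] at this
        rcases this with rfl | rfl
        · rw [Finset.card_eq_zero] at hx0
          have : a ∈ lk H A b := mem_lk.2 ⟨ha, hab.symm⟩
          rw [hx0] at this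
          exact Finset.notMem_empty a this
        · rw [Finset.card_eq_zero] at hy0
          have : a ∈ lk H A b := mem_lk.2 ⟨ha, hab.symm⟩
          rw [hy0] at this
          exact Finset.notMem_empty a this
      · have : b ∈ A ∪ B := by rw [hAB]; exact mem_nn.2 ⟨hb, hbv, hvb⟩
        rcases Finset.mem_union.1 this with k | k
        · exact hbA k
        · exact hnoAB a ha b k hab
    rw [Nat.even_iff] at e
    rcases Nat.eq_zero_or_pos (lk H P x).card with hx0 | hx1
    · exact iso hP hu hno hx0 (by omega)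
    · exact iso hQ (by rw [Finset.union_comm]; exact hu) (fun p hp q hq hpq => hno q hq p hp hpq.symm)
        (by omega) (by omega)
  | succ d ih =>
    by_contra hno
    push Not at hno
    have hPn : ∀ p ∈ P, p ∈ W ∧ p ≠ v ∧ ¬ H.Adj v p := fun p hp => mem_nn.1 (by
      rw [← hu]; exact Finset.mem_union_left _ hp)
    have hQn : ∀ p ∈ Q, p ∈ W ∧ p ≠ v ∧ ¬ H.Adj v p := fun p hp => mem_nn.1 (by
      rw [← hu]; exact Finset.mem_union_right _ hp)
    have hnnx : ∀ x ∈ lk H W v, nn H (lk H W x) v = lk H P x ∪ lk H Q x := by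
      intro x hx
      ext y
      rw [mem_nn, Finset.mem_union, mem_lk, mem_lk, mem_lk]
      constructor
      · rintro ⟨⟨y1, y2⟩, y3, y4⟩
        have : y ∈ P ∪ Q := by rw [hu]; exact mem_nn.2 ⟨y1, y3, y4⟩
        rcases Finset.mem_union.1 this with k | k
        · exact Or.inl ⟨k, y2⟩
        · exact Or.inr ⟨k, y2⟩
      · rintro (⟨y1, y2⟩ | ⟨y1, y2⟩)
        · exact ⟨⟨(hPn y y1).1, y2⟩, (hPn y y1).2⟩
        · exact ⟨⟨(hQn y y1).1, y2⟩, (hQn y y1).2⟩
    have hdich : ∀ x ∈ lk H W v, ¬ ((lk H P x).Nonempty ∧ (lk H Q x).Nonempty) := by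
      rintro x hx ⟨k1, k2⟩
      have hvx : v ∈ lk H W x := mem_lk.2 ⟨hv, (mem_lk.1 hx).2.symm⟩
      obtain ⟨p, hp, q, hq, hpq⟩ := ih (h.lk (lk_subset hx)) hvx k1 k2 (hnnx x hx).symm (by
        rw [Finset.disjoint_left]
        intro y y1 y2
        exact Finset.disjoint_left.1 hd (lk_subset y1) (lk_subset y2))
      exact hno p (lk_subset hp) q (lk_subset hq) hpq
    have hone : ∀ x ∈ lk H W v, (lk H P x).Nonempty ∨ (lk H Q x).Nonempty := by
      intro x hx
      have hvx : v ∈ lk H W x := mem_lk.2 ⟨hv, (mem_lk.1 hx).2.symm⟩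
      have h1 := (h.lk (lk_subset hx)).nn_nonempty hvx
      rw [hnnx x hx, Finset.union_nonempty] at h1
      exact h1
    have iso : ∀ {A B : Finset α}, A.Nonempty → A ∪ B = nn H W v →
        (∀ p ∈ A, ∀ q ∈ B, ¬ H.Adj p q) → ∃ x ∈ lk H W v, (lk H A x).Nonempty := by
      intro A B hA hAB hnoAB
      have hAn : ∀ p ∈ A, p ∈ W ∧ p ≠ v ∧ ¬ H.Adj v p := fun p hp => mem_nn.1 (by
        rw [← hAB]; exact Finset.mem_union_left _ hp)
      obtain ⟨a, ha, b, hb, hbA, hab⟩ := h.2.1 A (fun p hp => (hAn p hp).1) hA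
        (fun he => (hAn v (by rw [he]; exact hv)).2.1 rfl)
      by_cases hbv : b = v
      · exact absurd (hbv ▸ hab).symm (hAn a ha).2.2
      by_cases hvb : H.Adj v b
      · exact ⟨b, mem_lk.2 ⟨hb, hvb⟩, a, mem_lk.2 ⟨ha, hab.symm⟩⟩
      · have : b ∈ A ∪ B := by rw [hAB]; exact mem_nn.2 ⟨hb, hbv, hvb⟩
        rcases Finset.mem_union.1 this with k | k
        · exact absurd k hbA
        · exact absurd hab (hnoAB a ha b k)
    obtain ⟨x0, hx0, hx0'⟩ := iso hP hu hno
    obtain ⟨y0, hy0, hy0'⟩ := iso hQ (by rw [Finset.union_comm]; exact hu)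
      (fun p hp q hq hpq => hno q hq p hp hpq.symm)
    let LP : Finset α := (lk H W v).filter (fun x => (lk H P x).Nonempty)
    have hLP : ∀ x, x ∈ LP ↔ x ∈ lk H W v ∧ (lk H P x).Nonempty := fun x => Finset.mem_filter
    have hNL : NP H (d + 2) (lk H W v) := h.lk hv
    obtain ⟨a, ha, b, hb, hbn, hab⟩ := hNL.2.1 LP (Finset.filter_subset _ _)
      ⟨x0, (hLP x0).2 ⟨hx0, hx0'⟩⟩ (fun he => by
        have : y0 ∈ LP := by rw [he]; exact hy0
        exact hdich y0 hy0 ⟨((hLP y0).1 this).2, hy0'⟩)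
    have ha' := (hLP a).1 ha
    have hva : v ∈ lk H W a := mem_lk.2 ⟨hv, (mem_lk.1 ha'.1).2.symm⟩
    have hba : b ∈ lk H W a := mem_lk.2 ⟨lk_subset hb, hab⟩
    have hvb : v ∈ lk H (lk H W a) b := mem_lk.2 ⟨hva, (mem_lk.1 hb).2.symm⟩
    have hNb : NP H (d + 1) (lk H (lk H W a) b) := NP.lk (NP.lk h (lk_subset ha'.1)) hba
    obtain ⟨u, u1, u2, u3⟩ := hNb.exists_nonadj hvb
    rw [mem_lk, mem_lk] at u1
    have : u ∈ P ∪ Q := by rw [hu]; exact mem_nn.2 ⟨u1.1.1, u2, u3⟩
    rcases Finset.mem_union.1 this with k | k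
    · exact hbn ((hLP b).2 ⟨hb, u, mem_lk.2 ⟨k, u1.2⟩⟩)
    · exact hdich a ha'.1 ⟨ha'.2, u, mem_lk.2 ⟨k, u1.1.2⟩⟩

/-- the graph spanned by the set is a tree: built from a vertex by adding leaves -/
inductive Tree {α : Type} [DecidableEq α] (H : SimpleGraph α) : Finset α → Prop
  | one (b : α) : Tree H {b}
  | leaf {N : Finset α} {a b : α} : Tree H N → a ∉ N → b ∈ N → (∀ x ∈ N, H.Adj a x ↔ x = b) →
      Tree H (insert a N)

theorem th_tree {t : ℕ} {v : α} {L N : Finset α} (hN : Tree H N) (hvL : ∀ x ∈ L, H.Adj v x)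
    (hTL : Th H (t + 1) L) (hlk : ∀ x ∈ L, Th H t (lk H L x)) :
    (∀ c ∈ N, c ≠ v ∧ ¬ H.Adj v c) →
    (∀ a ∈ N, ∀ b ∈ N, H.Adj a b → Th H t (lk H (lk H L a) b)) →
    ∀ {L' : Finset α}, L' ⊆ L →
    (∀ x ∈ L', ∃ c ∈ N, H.Adj x c) →
    (∀ x ∈ L', ∀ y ∈ L', H.Adj x y → ∃ c ∈ N, H.Adj x c ∧ H.Adj y c) →
    (∀ x ∈ L', ∀ P Q : Finset α, P.Nonempty → Q.Nonempty → Disjoint P Q → P ∪ Q = lk H N x →
      ∃ p ∈ P, ∃ q ∈ Q, H.Adj p q) → Th H (t + 1) (insert v (L' ∪ N)) := by
  classical
  induction hN with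
  | one b =>
    intro hv _ L' hL' I1 _ _
    have hb := hv b (Finset.mem_singleton_self b)
    rw [Finset.union_comm, ← Finset.insert_eq]
    refine Th.susp hb.1.symm hb.2 (fun x hx => ⟨hvL x (hL' hx), ?_⟩) (hTL.mono hL')
    obtain ⟨c, hc, h⟩ := I1 x hx
    rw [Finset.mem_singleton] at hc
    rw [← hc]
    exact h.symm
  | @leaf N a b hN haN hbN hab ih =>
    intro hv hedge L' hL' I1 I2 I3
    have hva := hv a (Finset.mem_insert_self a N)
    have key : ∀ x ∈ L', H.Adj x a → (∃ c ∈ N, H.Adj x c) → H.Adj x b := by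
      rintro x hx hxa ⟨c, hc, hxc⟩
      obtain ⟨p, hp, q, hq, hpq⟩ := I3 x hx {a} (lk H N x) ⟨a, by simp⟩ ⟨c, mem_lk.2 ⟨hc, hxc⟩⟩
        (by
          rw [Finset.disjoint_singleton_left]
          exact fun h => haN (lk_subset h))
        (by
          ext y
          rw [Finset.mem_union, Finset.mem_singleton, mem_lk, mem_lk, Finset.mem_insert]
          constructor
          · rintro (rfl | ⟨h1, h2⟩)
            · exact ⟨Or.inl rfl, hxa⟩
            · exact ⟨Or.inr h1, h2⟩
          · rintro ⟨rfl | h1, h2⟩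
            · exact Or.inl rfl
            · exact Or.inr ⟨h1, h2⟩)
      rw [Finset.mem_singleton] at hp
      rw [hp] at hpq
      rw [mem_lk] at hq
      rw [← (hab q hq.1).1 hpq]
      exact hq.2
    let R : Finset α := L'.filter (fun x => H.Adj x a ∧ ∀ c ∈ N, ¬ H.Adj x c)
    have hR : ∀ x, x ∈ R ↔ x ∈ L' ∧ H.Adj x a ∧ ∀ c ∈ N, ¬ H.Adj x c := fun x => Finset.mem_filter
    have hRn : ∀ x ∈ L' \ R, H.Adj x a → ∃ c ∈ N, H.Adj x c := by
      intro x hx hxa
      rw [Finset.mem_sdiff] at hx
      by_contra hc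
      push Not at hc
      exact hx.2 ((hR x).2 ⟨hx.1, hxa, hc⟩)
    have hsub : L' \ R ⊆ L' := Finset.sdiff_subset
    have hB : Th H (t + 1) (insert v ((L' \ R) ∪ N)) := by
      refine ih (fun c hc => hv c (Finset.mem_insert_of_mem hc)) (fun a' ha' b' hb' =>
        hedge a' (Finset.mem_insert_of_mem ha') b' (Finset.mem_insert_of_mem hb'))
        (hsub.trans hL') ?_ ?_ ?_
      · intro x hx
        obtain ⟨c, hc, hxc⟩ := I1 x (hsub hx)
        rcases Finset.mem_insert.1 hc with rfl | hc
        · exact hRn x hx hxc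
        · exact ⟨c, hc, hxc⟩
      · intro x hx y hy hxy
        obtain ⟨c, hc, hxc, hyc⟩ := I2 x (hsub hx) y (hsub hy) hxy
        rcases Finset.mem_insert.1 hc with rfl | hc
        · exact ⟨b, hbN, key x (hsub hx) hxc (hRn x hx hxc), key y (hsub hy) hyc (hRn y hy hyc)⟩
        · exact ⟨c, hc, hxc, hyc⟩
      · intro x hx P Q hP hQ hPQ hun
        by_cases hxa : H.Adj x a
        · have hxb := key x (hsub hx) hxa (hRn x hx hxa)
          have hb' : b ∈ P ∪ Q := by rw [hun]; exact mem_lk.2 ⟨hbN, hxb⟩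
          have hPN : ∀ p ∈ P, p ∈ N := fun p hp => lk_subset (v := x) (H := H) (by
            rw [← hun]; exact Finset.mem_union_left _ hp)
          have hQN : ∀ p ∈ Q, p ∈ N := fun p hp => lk_subset (v := x) (H := H) (by
            rw [← hun]; exact Finset.mem_union_right _ hp)
          have hlk' : lk H (insert a N) x = insert a (P ∪ Q) := by
            rw [hun]
            ext y
            rw [mem_lk, Finset.mem_insert, Finset.mem_insert, mem_lk]
            constructor
            · rintro ⟨rfl | h1, h2⟩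
              · exact Or.inl rfl
              · exact Or.inr ⟨h1, h2⟩
            · rintro (rfl | ⟨h1, h2⟩)
              · exact ⟨Or.inl rfl, hxa⟩
              · exact ⟨Or.inr h1, h2⟩
          rcases Finset.mem_union.1 hb' with hb' | hb'
          · obtain ⟨p, hp, q, hq, hpq⟩ := I3 x (hsub hx) (insert a P) Q (Finset.insert_nonempty a P) hQ
              (Finset.disjoint_insert_left.2 ⟨fun h => haN (hQN a h), hPQ⟩) (by
                rw [hlk', Finset.insert_union])
            rcases Finset.mem_insert.1 hp with rfl | hp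
            · have := (hab q (hQN q hq)).1 hpq
              exact absurd hq (fun h => Finset.disjoint_left.1 hPQ hb' (this ▸ h))
            · exact ⟨p, hp, q, hq, hpq⟩
          · obtain ⟨p, hp, q, hq, hpq⟩ := I3 x (hsub hx) P (insert a Q) hP (Finset.insert_nonempty a Q)
              (Finset.disjoint_insert_right.2 ⟨fun h => haN (hPN a h), hPQ⟩) (by
                rw [hlk', Finset.union_insert])
            rcases Finset.mem_insert.1 hq with rfl | hq
            · have := (hab p (hPN p hp)).1 hpq.symm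
              exact absurd hp (fun h => Finset.disjoint_left.1 hPQ (this ▸ h) hb')
            · exact ⟨p, hp, q, hq, hpq⟩
        · refine I3 x (hsub hx) P Q hP hQ hPQ ?_
          rw [hun]
          ext y
          rw [mem_lk, mem_lk, Finset.mem_insert]
          constructor
          · rintro ⟨h1, h2⟩
            exact ⟨Or.inr h1, h2⟩
          · rintro ⟨rfl | h1, h2⟩
            · exact absurd h2 hxa
            · exact ⟨h1, h2⟩
    -- add `a`
    have hB2 : Th H (t + 1) (insert a (insert v ((L' \ R) ∪ N))) := by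
      refine Th.vert ?_ hB ?_
      · rw [Finset.mem_insert, Finset.mem_union]
        rintro (h | h | h)
        · exact hva.1 h
        · exact hva.2 (hvL a (hL' (hsub h)))
        · exact haN h
      · have h1 : Th H t (insert b (lk H (lk H L a) b)) :=
          Th.cone (fun x hx => (mem_lk.1 hx).2)
            (hedge a (Finset.mem_insert_self a N) b (Finset.mem_insert_of_mem hbN) ((hab b hbN).2 rfl))
        refine h1.mono ?_
        intro y hy
        rw [mem_lk, Finset.mem_insert, Finset.mem_union] at hy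
        obtain ⟨hy1, hy2⟩ := hy
        rw [Finset.mem_insert]
        rcases hy1 with rfl | hy1 | hy1
        · exact absurd hy2.symm hva.2
        · right
          rw [mem_lk, mem_lk]
          exact ⟨⟨hL' (hsub hy1), hy2⟩, (key y (hsub hy1) hy2.symm (hRn y hy1 hy2.symm)).symm⟩
        · left
          exact (hab y hy1).1 hy2
    -- add `R`
    have hB3 := Th.add hB2 R (fun x hx => by
      obtain ⟨x1, x2, x3⟩ := (hR x).1 hx
      have h1 : Th H t (insert v (insert a (lk H L' x))) := by
        refine Th.susp hva.1.symm hva.2 (fun y hy => ?_)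
          ((hlk x (hL' x1)).mono (lk_mono hL' x))
        rw [mem_lk] at hy
        refine ⟨hvL y (hL' hy.1), ?_⟩
        obtain ⟨c, hc, hxc, hyc⟩ := I2 x x1 y hy.1 hy.2
        rcases Finset.mem_insert.1 hc with rfl | hc
        · exact hyc.symm
        · exact absurd hxc (x3 c hc)
      refine h1.mono ?_
      intro y hy
      rw [mem_lk, Finset.mem_union, Finset.mem_insert, Finset.mem_insert, Finset.mem_union] at hy
      obtain ⟨hy1, hy2⟩ := hy
      rw [Finset.mem_insert, Finset.mem_insert]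
      rcases hy1 with (rfl | rfl | hy1 | hy1) | hy1
      · exact Or.inr (Or.inl rfl)
      · exact Or.inl rfl
      · exact Or.inr (Or.inr (mem_lk.2 ⟨hsub hy1, hy2⟩))
      · exact absurd hy2 (x3 y hy1)
      · exact Or.inr (Or.inr (mem_lk.2 ⟨((hR y).1 hy1).1, hy2⟩)))
    have hset : insert a (insert v ((L' \ R) ∪ N)) ∪ R = insert v (L' ∪ insert a N) := by
      ext y
      simp only [Finset.mem_union, Finset.mem_insert, Finset.mem_sdiff]
      constructor
      · rintro ((h | h | ⟨h, -⟩ | h) | h)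
        · exact Or.inr (Or.inr (Or.inl h))
        · exact Or.inl h
        · exact Or.inr (Or.inl h)
        · exact Or.inr (Or.inr (Or.inr h))
        · exact Or.inr (Or.inl ((hR y).1 h).1)
      · rintro (h | h | h | h)
        · exact Or.inl (Or.inr (Or.inl h))
        · by_cases hy : y ∈ R
          · exact Or.inr hy
          · exact Or.inl (Or.inr (Or.inr (Or.inl ⟨h, hy⟩)))
        · exact Or.inl (Or.inl h)
        · exact Or.inl (Or.inr (Or.inr (Or.inr h)))
    rwa [hset] at hB3

/-- a vertex whose non-neighbours span a tree -/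
theorem th_odd {d t : ℕ} {X : Finset α} (h : NP H (d + 3) X) {v : α} (hv : v ∈ X)
    (hT : Tree H (nn H X v)) (hl : ∀ x ∈ X, ∀ y ∈ lk H X x, Th H t (lk H (lk H X x) y)) :
    Th H (t + 1) X := by
  have hX : insert v (lk H X v ∪ nn H X v) = X := by
    ext y
    rw [Finset.mem_insert, Finset.mem_union, mem_lk, mem_nn]
    constructor
    · rintro (rfl | h | h)
      · exact hv
      · exact h.1
      · exact h.1
    · intro hy
      by_cases h1 : y = v
      · exact Or.inl h1
      by_cases h2 : H.Adj v y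
      · exact Or.inr (Or.inl ⟨hy, h2⟩)
      · exact Or.inr (Or.inr ⟨hy, h1, h2⟩)
  have h1 : ∀ x ∈ lk H X v, Th H t (lk H (lk H X v) x) := fun x hx => hl v hv x hx
  have hvx : ∀ x ∈ lk H X v, v ∈ lk H X x := fun x hx => mem_lk.2 ⟨hv, (mem_lk.1 hx).2.symm⟩
  rw [← hX]
  refine th_tree hT (fun x hx => (mem_lk.1 hx).2) (Th.of_lk h1) h1 (fun c hc => (mem_nn.1 hc).2)
    ?_ (Finset.Subset.refl _) ?_ ?_ ?_
  · intro a ha b hb hab
    have ha' := (mem_nn.1 ha).1
    have hb' := (mem_nn.1 hb).1
    exact (hl a ha' b (mem_lk.2 ⟨hb', hab⟩)).mono (lk_mono (lk_mono lk_subset a) b)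
  · intro x hx
    obtain ⟨u, u1, u2, u3⟩ := (h.lk (lk_subset hx)).exists_nonadj (hvx x hx)
    exact ⟨u, mem_nn.2 ⟨lk_subset u1, u2, u3⟩, (mem_lk.1 u1).2⟩
  · intro x hx y hy hxy
    have hxX := lk_subset hx
    have hyx : y ∈ lk H X x := mem_lk.2 ⟨lk_subset hy, hxy⟩
    have hvy : v ∈ lk H (lk H X x) y := mem_lk.2 ⟨hvx x hx, (mem_lk.1 hy).2.symm⟩
    have hNP : NP H (d + 1) (lk H (lk H X x) y) := NP.lk (NP.lk h hxX) hyx
    obtain ⟨u, u1, u2, u3⟩ := hNP.exists_nonadj hvy
    rw [mem_lk, mem_lk] at u1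
    exact ⟨u, mem_nn.2 ⟨u1.1.1, u2, u3⟩, u1.1.2, u1.2⟩
  · intro x hx P Q hP hQ hPQ hun
    refine nn_conn (d := d) (h.lk (lk_subset hx)) (hvx x hx) hP hQ ?_ hPQ
    rw [hun]
    ext y
    rw [mem_lk, mem_nn, mem_nn, mem_lk]
    tauto

end Pool.Agent.U410.CO
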